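import Pool.Agent.Helper4.TK.StD

/-!
# Project TK (levels `3·5^n`), module HkF: Hecke formula on the plane

Adapted from Pool/Agent/Helper48/TH/M_HkF.lean.
-/

set_option autoImplicit false

namespace Pool.Agent.Helper9.TK

open Pool.Agent.Helper4.TK
open Pool.Agent.Helper14.CV (Homog EqC act Tl)
open Pool.Agent.Helper14.W5 (tr5)

open Matrix

private theorem dvd_mul3 (l : ℤ) (A B C : Matrix (Fin 2) (Fin 2) ℤ) (h : ∀ i j, l ∣ B i j) :
    ∀ i j, l ∣ (A * B * C) i j := by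
  intro i j
  rw [Matrix.mul_apply]
  refine Finset.dvd_sum fun k _ => ?_
  rw [Matrix.mul_apply]
  exact Dvd.dvd.mul_right (Finset.dvd_sum fun m _ => Dvd.dvd.mul_left (h m k) _) _

private theorem key (l : ℤ) (h h' gi N N' : Matrix (Fin 2) (Fin 2) ℤ) (h1 : h.det = 1)
    (h2 : h'.det = 1) (h3 : gi.det = 1)
    (H : ∀ i j, l ∣ (h * N * gi * (h' * N' * gi).adjugate) i j) :
    ∀ i j, l ∣ (N * N'.adjugate) i j := by
  have e1 : gi * gi.adjugate = 1 := by rw [Matrix.mul_adjugate, h3, one_smul]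
  have e2 : h.adjugate * h = 1 := by rw [Matrix.adjugate_mul, h1, one_smul]
  have e3 : h'.adjugate * h' = 1 := by rw [Matrix.adjugate_mul, h2, one_smul]
  have e4 : h.adjugate * (h * N * gi * (h' * N' * gi).adjugate) * h' = N * N'.adjugate := by
    rw [Matrix.adjugate_mul_distrib, Matrix.adjugate_mul_distrib]
    calc h.adjugate * (h * N * gi * (gi.adjugate * (N'.adjugate * h'.adjugate))) * h'
        = (h.adjugate * h) * N * (gi * gi.adjugate) * N'.adjugate * (h'.adjugate * h') := by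
          simp only [Matrix.mul_assoc]
      _ = N * N'.adjugate := by
          rw [e1, e2, e3, Matrix.one_mul, Matrix.mul_one, Matrix.mul_one]
  rw [← e4]
  exact dvd_mul3 l _ _ _ H

/-- standard matrix -/
private def sm (X Y d : ℤ) : Matrix (Fin 2) (Fin 2) ℤ := !![1, X; 5 * Y, d]

/-- its inverse -/
private def si (X Y d : ℤ) : Matrix (Fin 2) (Fin 2) ℤ := !![d, -X; -(5 * Y), 1]

private theorem sm_det (X Y d : ℤ) (h : d - 5 * X * Y = 1) : (sm X Y d).det = 1 := by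
  rw [sm, Matrix.det_fin_two_of]
  linear_combination h

private theorem si_det (X Y d : ℤ) (h : d - 5 * X * Y = 1) : (si X Y d).det = 1 := by
  rw [si, Matrix.det_fin_two_of]
  linear_combination h

private def DJ (X' Y' d' X Y d j l : ℤ) : Matrix (Fin 2) (Fin 2) ℤ :=
  sm X' Y' d' * !![1, j; 0, l] * si X Y d

private def DI (X' Y' d' X Y d l : ℤ) : Matrix (Fin 2) (Fin 2) ℤ :=
  sm X' Y' d' * !![l, 0; 0, 1] * si X Y d

private theorem DJ_eq (X' Y' d' X Y d j l : ℤ) : DJ X' Y' d' X Y d j l =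
    !![d - (j + X' * l) * (5 * Y), -X + (j + X' * l);
       5 * Y' * d - (5 * Y' * j + d' * l) * (5 * Y),
       -(5 * Y') * X + (5 * Y' * j + d' * l)] := by
  rw [DJ, sm, si]
  ext i k
  fin_cases i <;> fin_cases k <;> simp [Matrix.mul_apply, Fin.sum_univ_two] <;> ring

private theorem DI_eq (X' Y' d' X Y d l : ℤ) : DI X' Y' d' X Y d l =
    !![l * d - X' * (5 * Y), -(l * X) + X';
       5 * Y' * l * d - d' * (5 * Y), -(5 * Y' * l) * X + d'] := by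
  rw [DI, sm, si]
  ext i k
  fin_cases i <;> fin_cases k <;> simp [Matrix.mul_apply, Fin.sum_univ_two] <;> ring

private theorem dvd_five_pow (r : ℕ) (z : ℤ) (h : ((z : ℤ) : ZMod (5 ^ r)) = 0) :
    (5 : ℤ) ^ r ∣ z := by
  have h1 : ((5 ^ r : ℕ) : ℤ) ∣ z := (ZMod.intCast_zmod_eq_zero_iff_dvd z (5 ^ r)).1 h
  push_cast at h1
  exact h1

private theorem dvd_five_pow_succ (r : ℕ) (z : ℤ) (h : ((z : ℤ) : ZMod (5 ^ r)) = 0) :
    (5 : ℤ) ^ (r + 1) ∣ 5 * z := by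
  rw [pow_succ, mul_comm]
  exact mul_dvd_mul_left 5 (dvd_five_pow r z h)

private theorem isUnit_one_sub_five (s : ℕ) (z : ZMod (5 ^ s)) : IsUnit (1 - 5 * z) := by
  apply IsNilpotent.isUnit_one_sub
  refine ⟨s, ?_⟩
  have h : ((5 : ZMod (5 ^ s)) ^ s) = 0 := by
    have := ZMod.natCast_self (5 ^ s)
    push_cast at this
    exact this
  rw [mul_pow, h, zero_mul]

private theorem tr_inf {R : Type} (r s l : ℕ) (F : ZMod (5 ^ r) → ZMod (5 ^ s) → R)
    (x : ZMod (5 ^ r)) (y : ZMod (5 ^ s)) :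
    tr5 1 0 0 (l : ℤ) F x y = F ((l : ZMod (5 ^ r)) * x) (y * (l : ZMod (5 ^ s))⁻¹) := by
  unfold tr5
  have e1 : (((0 : ℤ) : ZMod (5 ^ r)) + (((l : ℕ) : ℤ) : ZMod (5 ^ r)) * x) = (l : ZMod (5 ^ r)) * x := by
    push_cast
    ring
  have e2 : (((1 : ℤ) : ZMod (5 ^ r)) + 5 * ((0 : ℤ) : ZMod (5 ^ r)) * x) = 1 := by
    push_cast
    ring
  have e3 : (((0 : ℤ) : ZMod (5 ^ s)) + ((1 : ℤ) : ZMod (5 ^ s)) * y) = y := by
    push_cast
    ring
  have e4 : ((((l : ℕ) : ℤ) : ZMod (5 ^ s)) + 5 * ((0 : ℤ) : ZMod (5 ^ s)) * y) = (l : ZMod (5 ^ s)) := by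
    push_cast
    ring
  rw [e1, e2, e3, e4, ZMod.inv_one, mul_one]

private theorem tr_j {R : Type} (r s l : ℕ) (j : ℤ) (F : ZMod (5 ^ r) → ZMod (5 ^ s) → R)
    (x : ZMod (5 ^ r)) (y : ZMod (5 ^ s)) :
    tr5 (l : ℤ) (-j) 0 1 F x y = F ((x - (j : ZMod (5 ^ r))) * (l : ZMod (5 ^ r))⁻¹)
      ((l : ZMod (5 ^ s)) * y * (1 - 5 * (j : ZMod (5 ^ s)) * y)⁻¹) := by
  unfold tr5
  have e1 : (((-j : ℤ) : ZMod (5 ^ r)) + ((1 : ℤ) : ZMod (5 ^ r)) * x) = x - (j : ZMod (5 ^ r)) := by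
    push_cast
    ring
  have e2 : ((((l : ℕ) : ℤ) : ZMod (5 ^ r)) + 5 * ((0 : ℤ) : ZMod (5 ^ r)) * x) = (l : ZMod (5 ^ r)) := by
    push_cast
    ring
  have e3 : (((0 : ℤ) : ZMod (5 ^ s)) + (((l : ℕ) : ℤ) : ZMod (5 ^ s)) * y) = (l : ZMod (5 ^ s)) * y := by
    push_cast
    ring
  have e4 : (((1 : ℤ) : ZMod (5 ^ s)) + 5 * ((-j : ℤ) : ZMod (5 ^ s)) * y) =
      1 - 5 * (j : ZMod (5 ^ s)) * y := by
    push_cast
    ring
  rw [e1, e2, e3, e4]

theorem hHkF (hHkB : THkB) (_he : TEdg) (hPlA : TPlK) : THkF := by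
  intro R _ r s l G J hl hl2 hl22 hG hJ hJ' u1 u2 v1 v2 hu hv x y
  have hodd : Nat.Coprime l 5 := by
    rw [Nat.coprime_primes hl Nat.prime_five]
    exact hl2
  have hlr : (l : ZMod (5 ^ r)) * (l : ZMod (5 ^ r))⁻¹ = 1 :=
    ZMod.coe_mul_inv_eq_one l (Nat.Coprime.pow_right r hodd)
  have hls : (l : ZMod (5 ^ s)) * (l : ZMod (5 ^ s))⁻¹ = 1 :=
    ZMod.coe_mul_inv_eq_one l (Nat.Coprime.pow_right s hodd)
  have hl0 : (l : ℤ) ≠ 0 := by exact_mod_cast hl.ne_zero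
  -- the matrix g
  set X : ℤ := (x.val : ℤ) with hX
  set Y : ℤ := yK x y with hY
  set d : ℤ := 1 + 5 * X * Y with hd
  obtain ⟨⟨_, g2, g3⟩, g4⟩ := hPlA r s x y
  rw [← hX, ← hY, ← hd] at g3
  rw [← hX] at g2
  rw [← hY] at g4
  have hdet : d - 5 * X * Y = 1 := by rw [hd]; ring
  -- the matrices g_j and g_∞
  set xj : ℤ → ZMod (5 ^ r) := fun j => (x - ((j : ℤ) : ZMod (5 ^ r))) * (l : ZMod (5 ^ r))⁻¹ with hxj
  set yj : ℤ → ZMod (5 ^ s) := fun j => (l : ZMod (5 ^ s)) * y *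
    (1 - 5 * ((j : ℤ) : ZMod (5 ^ s)) * y)⁻¹ with hyj
  set Xj : ℤ → ℤ := fun j => ((xj j).val : ℤ) with hXj
  set Yj : ℤ → ℤ := fun j => yK (xj j) (yj j) with hYj
  set dj : ℤ → ℤ := fun j => 1 + 5 * Xj j * Yj j with hdj
  set xi : ZMod (5 ^ r) := (l : ZMod (5 ^ r)) * x with hxi
  set yi : ZMod (5 ^ s) := y * (l : ZMod (5 ^ s))⁻¹ with hyi
  set Xi : ℤ := ((xi).val : ℤ) with hXi
  set Yi : ℤ := yK xi yi with hYi
  set di : ℤ := 1 + 5 * Xi * Yi with hdi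
  have hdetj : ∀ j, dj j - 5 * Xj j * Yj j = 1 := by intro j; rw [hdj]; ring
  have hdeti : di - 5 * Xi * Yi = 1 := by rw [hdi]; ring
  have pj : ∀ j, ((Xj j : ℤ) : ZMod (5 ^ r)) = xj j ∧ ((Yj j : ℤ) : ZMod (5 ^ s)) = yj j * ((dj j : ℤ) : ZMod (5 ^ s)) ∧
      (3 : ℤ) ∣ Yj j := by
    intro j
    obtain ⟨⟨_, h2, h3⟩, h4⟩ := hPlA r s (xj j) (yj j)
    exact ⟨by rw [Int.cast_one, mul_one] at h2; exact h2, h3, h4⟩
  have pi' : ((Xi : ℤ) : ZMod (5 ^ r)) = xi ∧ ((Yi : ℤ) : ZMod (5 ^ s)) = yi * ((di : ℤ) : ZMod (5 ^ s)) ∧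
      (3 : ℤ) ∣ Yi := by
    obtain ⟨⟨_, h2, h3⟩, h4⟩ := hPlA r s xi yi
    exact ⟨by rw [Int.cast_one, mul_one] at h2; exact h2, h3, h4⟩
  have pg : ((X : ℤ) : ZMod (5 ^ r)) = x ∧ ((Y : ℤ) : ZMod (5 ^ s)) = y * ((d : ℤ) : ZMod (5 ^ s)) :=
    ⟨by rw [Int.cast_one, mul_one] at g2; exact g2, g3⟩
  -- congruences
  have cj1 : ∀ j : ℤ, (5 : ℤ) ^ r ∣ j + Xj j * l - X := by
    intro j
    apply dvd_five_pow
    push_cast
    rw [(pj j).1, pg.1, hxj]
    linear_combination (x - (j : ZMod (5 ^ r))) * hlr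
  have cj2 : ∀ j : ℤ, (5 : ℤ) ^ (s + 1) ∣ 5 * (Yj j * d - (5 * Yj j * j + dj j * l) * Y) := by
    intro j
    apply dvd_five_pow_succ
    have hu := ZMod.mul_inv_of_unit _ (isUnit_one_sub_five s ((j : ZMod (5 ^ s)) * y))
    rw [← mul_assoc] at hu
    have h3 : ((Yj j : ℤ) : ZMod (5 ^ s)) * (1 - 5 * (j : ZMod (5 ^ s)) * y) =
        (l : ZMod (5 ^ s)) * y * ((dj j : ℤ) : ZMod (5 ^ s)) := by
      rw [(pj j).2.1, hyj]
      linear_combination ((l : ZMod (5 ^ s)) * y * ((dj j : ℤ) : ZMod (5 ^ s))) * hu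
    have h4 := pg.2
    have e : ((Yj j * d - (5 * Yj j * j + dj j * l) * Y : ℤ) : ZMod (5 ^ s)) =
        ((Yj j : ℤ) : ZMod (5 ^ s)) * ((d : ℤ) : ZMod (5 ^ s)) -
          (5 * ((Yj j : ℤ) : ZMod (5 ^ s)) * (j : ZMod (5 ^ s)) +
            ((dj j : ℤ) : ZMod (5 ^ s)) * (l : ZMod (5 ^ s))) * ((Y : ℤ) : ZMod (5 ^ s)) := by
      push_cast
      ring
    rw [e, h4]
    linear_combination ((d : ℤ) : ZMod (5 ^ s)) * h3
  have ci1 : (5 : ℤ) ^ r ∣ Xi - l * X := by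
    apply dvd_five_pow
    push_cast
    rw [pi'.1, pg.1, hxi]
    ring
  have ci2 : (5 : ℤ) ^ (s + 1) ∣ 5 * (Yi * l * d - di * Y) := by
    apply dvd_five_pow_succ
    have e : ((Yi * l * d - di * Y : ℤ) : ZMod (5 ^ s)) =
        ((Yi : ℤ) : ZMod (5 ^ s)) * (l : ZMod (5 ^ s)) * ((d : ℤ) : ZMod (5 ^ s)) -
          ((di : ℤ) : ZMod (5 ^ s)) * ((Y : ℤ) : ZMod (5 ^ s)) := by
      push_cast
      ring
    rw [e, pi'.2.1, pg.2, hyi]
    linear_combination (y * ((di : ℤ) : ZMod (5 ^ s)) * ((d : ℤ) : ZMod (5 ^ s))) * hls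
  have h3c : IsCoprime (3 : ℤ) ((5 : ℤ) ^ (s + 1)) := by
    refine IsCoprime.pow_right ?_
    exact ⟨2, -1, by norm_num⟩
  have cj3 : ∀ j : ℤ, 3 * (5 : ℤ) ^ (s + 1) ∣ 5 * (Yj j * d - (5 * Yj j * j + dj j * l) * Y) := by
    intro j
    refine h3c.mul_dvd ?_ (cj2 j)
    exact Dvd.dvd.mul_left (dvd_sub (Dvd.dvd.mul_right (pj j).2.2 _) (Dvd.dvd.mul_left g4 _)) _
  have ci3 : 3 * (5 : ℤ) ^ (s + 1) ∣ 5 * (Yi * l * d - di * Y) := by
    refine h3c.mul_dvd ?_ ci2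
    exact Dvd.dvd.mul_left (dvd_sub (Dvd.dvd.mul_right (Dvd.dvd.mul_right pi'.2.2 _) _) (Dvd.dvd.mul_left g4 _)) _
  -- the family
  let e : Fin l ≃ J := (Finset.equivFinOfCardEq hJ).symm
  let δ : Fin (l + 1) → Matrix (Fin 2) (Fin 2) ℤ := Fin.cons (DI Xi Yi di X Y d l)
    (fun i => DJ (Xj (e i)) (Yj (e i)) (dj (e i)) X Y d (e i) l)
  have hδ0 : δ 0 = DI Xi Yi di X Y d l := rfl
  have hδs : ∀ i : Fin l, δ i.succ = DJ (Xj (e i)) (Yj (e i)) (dj (e i)) X Y d (e i) l := fun i => rfl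
  have hDJ : ∀ j : ℤ, (DJ (Xj j) (Yj j) (dj j) X Y d j l).det = l ∧
      (5 : ℤ) ^ r ∣ (DJ (Xj j) (Yj j) (dj j) X Y d j l) 0 1 ∧
      3 * (5 : ℤ) ^ (s + 1) ∣ (DJ (Xj j) (Yj j) (dj j) X Y d j l) 1 0 := by
    intro j
    refine ⟨?_, ?_, ?_⟩
    · rw [DJ, Matrix.det_mul, Matrix.det_mul, sm_det _ _ _ (hdetj j), si_det _ _ _ hdet,
        Matrix.det_fin_two_of]
      ring
    · rw [DJ_eq]
      have := cj1 j
      convert this using 1
      simp
      ring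
    · rw [DJ_eq]
      have := cj3 j
      convert this using 1
      simp
      ring
  have hDI : (DI Xi Yi di X Y d l).det = l ∧
      (5 : ℤ) ^ r ∣ (DI Xi Yi di X Y d l) 0 1 ∧
      3 * (5 : ℤ) ^ (s + 1) ∣ (DI Xi Yi di X Y d l) 1 0 := by
    refine ⟨?_, ?_, ?_⟩
    · rw [DI, Matrix.det_mul, Matrix.det_mul, sm_det _ _ _ hdeti, si_det _ _ _ hdet,
        Matrix.det_fin_two_of]
      ring
    · rw [DI_eq]
      convert ci1 using 1
      simp
      ring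
    · rw [DI_eq]
      convert ci3 using 1
      simp
      ring
  have hpair : ∀ P P', P ≠ P' → ¬ ∀ i j, (l : ℤ) ∣ (δ P * (δ P').adjugate) i j := by
    have hl1 : ¬ (l : ℤ) ∣ 1 := by
      intro h
      have := Int.natCast_dvd_natCast.1 (by exact_mod_cast h : ((l : ℕ) : ℤ) ∣ ((1 : ℕ) : ℤ))
      exact hl.one_lt.ne' (Nat.dvd_one.1 this)
    intro P P' hne H
    induction P using Fin.cases with
    | zero =>
      induction P' using Fin.cases with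
      | zero => exact hne rfl
      | succ i' =>
        rw [hδ0, hδs] at H
        have := key l _ _ _ _ _ (sm_det _ _ _ hdeti) (sm_det _ _ _ (hdetj (e i'))) (si_det _ _ _ hdet) H 1 1
        apply hl1
        simpa [Matrix.adjugate_fin_two_of, Matrix.mul_apply, Fin.sum_univ_two] using this
    | succ i =>
      induction P' using Fin.cases with
      | zero =>
        rw [hδ0, hδs] at H
        have := key l _ _ _ _ _ (sm_det _ _ _ (hdetj (e i))) (sm_det _ _ _ hdeti) (si_det _ _ _ hdet) H 0 0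
        apply hl1
        simpa [Matrix.adjugate_fin_two_of, Matrix.mul_apply, Fin.sum_univ_two] using this
      | succ i' =>
        rw [hδs, hδs] at H
        have h1 := key l _ _ _ _ _ (sm_det _ _ _ (hdetj (e i))) (sm_det _ _ _ (hdetj (e i')))
          (si_det _ _ _ hdet) H 0 1
        have h2 : (l : ℤ) ∣ (e i : ℤ) - (e i' : ℤ) := by
          have e3 : (!![1, (e i : ℤ); 0, (l : ℤ)] * (!![1, (e i' : ℤ); 0, (l : ℤ)]).adjugate) 0 1 =
              (e i : ℤ) - (e i' : ℤ) := by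
            simp [Matrix.adjugate_fin_two_of, Matrix.mul_apply, Fin.sum_univ_two]
            ring
          rw [← e3]
          exact h1
        have h5 := hJ' _ (e i).2 _ (e i').2 h2
        apply hne
        congr 1
        exact e.injective (Subtype.ext h5)
  have hB := (hHkB R _ r (s + 1) l G hl hl2 hl22 hG).2 δ
    (by
      intro P
      induction P using Fin.cases with
      | zero => rw [hδ0]; exact hDI.1
      | succ i => rw [hδs]; exact (hDJ _).1)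
    (by
      intro P
      induction P using Fin.cases with
      | zero => rw [hδ0]; exact hDI.2.1
      | succ i => rw [hδs]; exact (hDJ _).2.1)
    (by
      intro P
      induction P using Fin.cases with
      | zero => rw [hδ0]; exact hDI.2.2
      | succ i => rw [hδs]; exact (hDJ _).2.2)
    hpair
  have hg : ∀ w1 w2 : ℤ, (w1 ≠ 0 ∨ w2 ≠ 0) →
      (w1 + X * w2 : ℤ) ≠ 0 ∨ (5 * Y * w1 + d * w2 : ℤ) ≠ 0 := by
    intro w1 w2 hw
    by_contra hcon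
    push Not at hcon
    obtain ⟨k1, k2⟩ := hcon
    have k3 : w2 = 0 := by linear_combination k2 - 5 * Y * k1 - w2 * hdet
    have k4 : w1 = 0 := by linear_combination k1 - X * k3
    rcases hw with hw | hw
    · exact hw k4
    · exact hw k3
  have hdiff := hB.diff (hg u1 u2 hu) (hg v1 v2 hv)
  have hleft : edgeK u1 u2 v1 v2 (Tl l (5 ^ r) G) x y =
      Tl l (5 ^ r) G (u1 + X * u2) (5 * Y * u1 + d * u2) -
      Tl l (5 ^ r) G (v1 + X * v2) (5 * Y * v1 + d * v2) := rfl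
  rw [hleft, ← hdiff, ← Finset.sum_sub_distrib, Fin.sum_univ_succ]
  congr 1
  · -- the term at infinity
    rw [tr_inf, ← hxi, ← hyi]
    have hr : edgeK (l * u1) u2 (l * v1) v2 G xi yi =
      G ((l : ℤ) * u1 + Xi * u2) (5 * Yi * ((l : ℤ) * u1) + di * u2) -
      G ((l : ℤ) * v1 + Xi * v2) (5 * Yi * ((l : ℤ) * v1) + di * v2) := rfl
    rw [hr, hδ0, DI_eq]
    have k : ∀ w1 w2 : ℤ, G ((!![(l : ℤ) * d - Xi * (5 * Y), -((l : ℤ) * X) + Xi;
        5 * Yi * (l : ℤ) * d - di * (5 * Y), -(5 * Yi * (l : ℤ)) * X + di] : Matrix (Fin 2) (Fin 2) ℤ) 0 0 *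
          (w1 + X * w2) + (!![(l : ℤ) * d - Xi * (5 * Y), -((l : ℤ) * X) + Xi;
        5 * Yi * (l : ℤ) * d - di * (5 * Y), -(5 * Yi * (l : ℤ)) * X + di] : Matrix (Fin 2) (Fin 2) ℤ) 0 1 *
          (5 * Y * w1 + d * w2))
        ((!![(l : ℤ) * d - Xi * (5 * Y), -((l : ℤ) * X) + Xi;
        5 * Yi * (l : ℤ) * d - di * (5 * Y), -(5 * Yi * (l : ℤ)) * X + di] : Matrix (Fin 2) (Fin 2) ℤ) 1 0 *
          (w1 + X * w2) + (!![(l : ℤ) * d - Xi * (5 * Y), -((l : ℤ) * X) + Xi;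
        5 * Yi * (l : ℤ) * d - di * (5 * Y), -(5 * Yi * (l : ℤ)) * X + di] : Matrix (Fin 2) (Fin 2) ℤ) 1 1 *
          (5 * Y * w1 + d * w2)) =
        G ((l : ℤ) * w1 + Xi * w2) (5 * Yi * ((l : ℤ) * w1) + di * w2) := by
      intro w1 w2
      congr 1
      · simp
        linear_combination ((l : ℤ) * w1 + Xi * w2) * hdet
      · simp
        linear_combination (5 * Yi * (l : ℤ) * w1 + di * w2) * hdet
    rw [k u1 u2, k v1 v2]
  · -- the other terms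
    have hsum : ∀ f : ℤ → R, ∑ i : Fin l, f (e i) = ∑ j ∈ J, f j := by
      intro f
      rw [Equiv.sum_comp e (fun j : J => f j), Finset.sum_coe_sort J f]
    rw [← hsum]
    refine Finset.sum_congr rfl fun i _ => ?_
    rw [tr_j]
    have hr : edgeK (u1 + (e i : ℤ) * u2) (l * u2) (v1 + (e i : ℤ) * v2) (l * v2) G (xj (e i)) (yj (e i)) =
      G (u1 + (e i : ℤ) * u2 + Xj (e i) * ((l : ℤ) * u2))
        (5 * Yj (e i) * (u1 + (e i : ℤ) * u2) + dj (e i) * ((l : ℤ) * u2)) -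
      G (v1 + (e i : ℤ) * v2 + Xj (e i) * ((l : ℤ) * v2))
        (5 * Yj (e i) * (v1 + (e i : ℤ) * v2) + dj (e i) * ((l : ℤ) * v2)) := rfl
    change _ = edgeK (u1 + (e i : ℤ) * u2) (l * u2) (v1 + (e i : ℤ) * v2) (l * v2) G (xj (e i)) (yj (e i))
    rw [hr, hδs, DJ_eq]
    congr 1
    · congr 1
      · simp
        linear_combination (u1 + ((e i : ℤ) + Xj (e i) * (l : ℤ)) * u2) * hdet
      · simp
        linear_combination (5 * Yj (e i) * u1 +
          (5 * Yj (e i) * (e i : ℤ) + dj (e i) * (l : ℤ)) * u2) * hdet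
    · congr 1
      · simp
        linear_combination (v1 + ((e i : ℤ) + Xj (e i) * (l : ℤ)) * v2) * hdet
      · simp
        linear_combination (5 * Yj (e i) * v1 +
          (5 * Yj (e i) * (e i : ℤ) + dj (e i) * (l : ℤ)) * v2) * hdet

end Pool.Agent.Helper9.TK
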